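import Pool.Agent.MNW.StmtsT

set_option autoImplicit false

/-!
MNW row SYW: symmetry of the weight.
-/

namespace Pool.Agent.MNW.H77

open Pool.Agent.MNW

theorem syw : SywStmt := by
  intro g m A a b hm
  have h1 : (m : ℝ) - 1 ≠ 0 := by
    have : (2 : ℝ) ≤ m := by exact_mod_cast hm
    linarith
  unfold w1 w0 gm
  field_simp
  ring

end Pool.Agent.MNW.H77
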