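import Pool.Agent.MNW.StmtsT

set_option autoImplicit false

/-!
MNW row DWN: existence of the downward data.
-/

namespace Pool.Agent.MNW.H77

open Pool.Agent.MNW Pool.Agent.MNT
open scoped Classical

section tree

variable {V : Type} [Fintype V] [PartialOrder V] [OrderTop V] (T : MNT.Tree V)

theorem mem_kids {v c : V} : c ∈ T.kids v ↔ c ≠ ⊤ ∧ T.par c = v := by
  simp [MNT.Tree.kids]

theorem kid_lt {v c : V} (h : c ∈ T.kids v) : c < v := by
  have h1 := (mem_kids T).1 h
  have := T.lt_par c h1.1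
  rwa [h1.2] at this

/-- recursion downwards -/
theorem downRec (h k : V → ℝ) : ∃ f : V → ℝ, ∀ v, f v = h v + ∑ c ∈ T.kids v, k c * f c := by
  refine ⟨(wellFounded_lt (α := V)).fix fun v ih =>
    h v + ∑ c ∈ T.kids v, if hc : c < v then k c * ih c hc else 0, fun v => ?_⟩
  rw [WellFounded.fix_eq]
  congr 1
  apply Finset.sum_congr rfl
  intro c hc
  rw [dif_pos (kid_lt T hc)]

/-- recursion upwards -/
theorem upRec (h k : V → ℝ) : ∃ f : V → ℝ, ∀ c, c ≠ ⊤ →
    f c = h c + if T.par c = ⊤ then 0 else k (T.par c) * f (T.par c) := by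
  refine ⟨(wellFounded_gt (α := V)).fix fun c ih =>
    h c + if T.par c = ⊤ then 0 else
      if hc : T.par c > c then k (T.par c) * ih (T.par c) hc else 0, fun c hc => ?_⟩
  rw [WellFounded.fix_eq]
  congr 1
  rw [dif_pos (T.lt_par c hc)]

variable {T} {g m : ℕ} {G : V → Prop} {a b : V → ℕ} {l s r : V → ℝ}

theorem rho_nn (L : La g m T G a b) (v : V) : 0 ≤ rho T b v := by
  unfold rho
  have h1 := L.b_kids v
  have h2 : (∑ c ∈ T.kids v, (b c : ℝ)) ≤ b v := by exact_mod_cast h1
  linarith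

theorem s_nn (R : Res T G l s r) (v : V) : 0 ≤ s v := by
  by_cases h : G v
  · exact (R.s_grd v h).ge
  · exact (R.s_pos v h).le

theorem ratio {x y : ℝ} (hx : 0 ≤ x) (hy : 0 < y) : 0 ≤ (x / (x + y)) ^ 2 ∧ (x / (x + y)) ^ 2 ≤ 1 := by
  refine ⟨by positivity, ?_⟩
  have h1 : 0 ≤ x / (x + y) := by positivity
  have h2 : x / (x + y) ≤ 1 := by
    rw [div_le_one (by linarith)]
    linarith
  nlinarith

end tree

theorem dwn : DwnStmt := by
  intro g m A V _ _ _ T G a b l s r hl L R
  obtain ⟨q, hq⟩ := downRec T (rho T b) (fun c => (s c / (s c + l c)) ^ 2)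
  obtain ⟨U, hU⟩ := downRec T (fun v => ∑ c ∈ T.kids v,
    (l c * w1 g m A (a c) (b c) - A * (s c * l c / (s c + l c)) * q c)) (fun _ => 1)
  have hb : ∀ v, 0 ≤ q v ∧ q v ≤ b v := by
    intro v
    induction v using (wellFounded_lt (α := V)).induction with
    | _ v ih =>
      have h1 : ∀ c ∈ T.kids v, 0 ≤ (s c / (s c + l c)) ^ 2 * q c ∧
          (s c / (s c + l c)) ^ 2 * q c ≤ b c := by
        intro c hc
        obtain ⟨h2, h3⟩ := ih c (kid_lt T hc)
        obtain ⟨h4, h5⟩ := ratio (s_nn R c) (hl c ((mem_kids T).1 hc).1)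
        refine ⟨mul_nonneg h4 h2, ?_⟩
        calc (s c / (s c + l c)) ^ 2 * q c ≤ 1 * q c := mul_le_mul_of_nonneg_right h5 h2
          _ ≤ b c := by linarith
      rw [hq v]
      constructor
      · exact add_nonneg (rho_nn L v) (Finset.sum_nonneg fun c hc => (h1 c hc).1)
      · have h2 := Finset.sum_le_sum fun c hc => (h1 c hc).2
        unfold rho
        linarith
  refine ⟨q, U, hq, fun v => ?_, fun v => (hb v).1, fun v => (hb v).2⟩
  rw [hU v, ← Finset.sum_add_distrib]
  apply Finset.sum_congr rfl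
  intro c _
  unfold YD
  ring

end Pool.Agent.MNW.H77
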