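import Pool.Agent.Helper77_MNW.DWN

set_option autoImplicit false

/-!
MNW row UPX: existence of the upward data.
-/

namespace Pool.Agent.MNW.H77

open Pool.Agent.MNW Pool.Agent.MNT
open scoped Classical

theorem upx : UpxStmt := by
  intro g m A V _ _ _ T G a b l s r q U hl L R D
  obtain ⟨p, hp⟩ := upRec T (fun c => rho T b (T.par c) +
    ∑ d ∈ (T.kids (T.par c)).erase c, (s d / (s d + l d)) ^ 2 * q d)
    (fun c => (r c / (r c + l c)) ^ 2)
  obtain ⟨Z, hZ⟩ := upRec T (fun c => ∑ d ∈ (T.kids (T.par c)).erase c, YD g m A a b l s q U d +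
    if T.par c = ⊤ then 0 else l (T.par c) * w1 g m A (a (T.par c)) (b (T.par c)) -
      A * (r (T.par c) * l (T.par c) / (r (T.par c) + l (T.par c))) * p (T.par c)) (fun _ => 1)
  have hr : ∀ c, c ≠ ⊤ → 0 ≤ r c := by
    intro c hc
    by_cases h : G (T.par c)
    · exact (R.r_grd c hc h).ge
    · exact (R.r_pos c hc h).le
  have hb : ∀ c, c ≠ ⊤ → 0 ≤ p c ∧ p c ≤ m - b c := by
    intro c
    induction c using (wellFounded_gt (α := V)).induction with
    | _ c ih =>
      intro hc
      have hck : c ∈ T.kids (T.par c) := (mem_kids T).2 ⟨hc, rfl⟩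
      have h1 : ∀ d ∈ (T.kids (T.par c)).erase c, 0 ≤ (s d / (s d + l d)) ^ 2 * q d ∧
          (s d / (s d + l d)) ^ 2 * q d ≤ b d := by
        intro d hd
        have hdk := Finset.mem_of_mem_erase hd
        obtain ⟨h4, h5⟩ := ratio (s_nn R d) (hl d ((mem_kids T).1 hdk).1)
        have h2 := D.q_nn d
        have h3 := D.q_le d
        refine ⟨mul_nonneg h4 h2, ?_⟩
        calc (s d / (s d + l d)) ^ 2 * q d ≤ 1 * q d := mul_le_mul_of_nonneg_right h5 h2
          _ ≤ b d := by linarith
      have h2 : 0 ≤ ∑ d ∈ (T.kids (T.par c)).erase c, (s d / (s d + l d)) ^ 2 * q d :=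
        Finset.sum_nonneg fun d hd => (h1 d hd).1
      have h3 : ∑ d ∈ (T.kids (T.par c)).erase c, (s d / (s d + l d)) ^ 2 * q d ≤
          ∑ d ∈ (T.kids (T.par c)).erase c, (b d : ℝ) :=
        Finset.sum_le_sum fun d hd => (h1 d hd).2
      have h4 : rho T b (T.par c) + ∑ d ∈ (T.kids (T.par c)).erase c, (b d : ℝ) =
          b (T.par c) - b c := by
        unfold rho
        rw [← Finset.add_sum_erase _ _ hck]
        ring
      have h5 := rho_nn L (T.par c)
      rw [hp c hc]
      by_cases hu : T.par c = ⊤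
      · rw [if_pos hu]
        constructor
        · linarith
        · have h6 : (b (T.par c) : ℝ) = m := by
            rw [hu, L.b_top]
          linarith
      · rw [if_neg hu]
        obtain ⟨h6, h7⟩ := ih (T.par c) (T.lt_par c hc) hu
        obtain ⟨h8, h9⟩ := ratio (hr _ hu) (hl _ hu)
        have h10 : 0 ≤ (r (T.par c) / (r (T.par c) + l (T.par c))) ^ 2 * p (T.par c) :=
          mul_nonneg h8 h6
        have h11 : (r (T.par c) / (r (T.par c) + l (T.par c))) ^ 2 * p (T.par c) ≤
            1 * p (T.par c) := mul_le_mul_of_nonneg_right h9 h6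
        constructor
        · linarith
        · linarith
  refine ⟨p, Z, hp, fun c hc => ?_, fun c hc => (hb c hc).1, fun c hc => (hb c hc).2⟩
  rw [hZ c hc]
  by_cases hu : T.par c = ⊤
  · rw [if_pos hu, if_pos hu, if_pos hu]
    ring
  · rw [if_neg hu, if_neg hu, if_neg hu]
    unfold YU
    ring

end Pool.Agent.MNW.H77
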